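import Mathlib
import Pool.Agent.H60.Lam

namespace Pool.Agent.Results.MP_62fa17_nt.Q1

open Pool.Agent.H60.Lam

theorem result : ∀ n : ℕ, 1 < n → A n = 2 ^ n := by
  intro n hn
  obtain ⟨r, rfl⟩ : ∃ r, n = r + 2 := ⟨n - 2, by omega⟩
  first
    | exact A_eq (r + 1)
    | exact B_eq r

end Pool.Agent.Results.MP_62fa17_nt.Q1
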